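import Mathlib

/-!
Models of ZFC. A structure is a type `M` with a binary relation `E` (`E x y` reads: `x ∈ y`).
All notions below are first-order: every quantifier ranges over `M`.
-/

namespace Pool.Agent.Lib.Forcing

universe u

/-- Formulas of the language of set theory, with variables indexed by `ℕ`. -/
inductive Fml : Type
  | mem (i j : ℕ) : Fml
  | eq (i j : ℕ) : Fml
  | neg (φ : Fml) : Fml
  | and (φ ψ : Fml) : Fml
  | all (i : ℕ) (φ : Fml) : Fml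

variable {M : Type u} (E : M → M → Prop)

/-- Tarski satisfaction under an assignment of the variables. -/
def Sat : Fml → (ℕ → M) → Prop
  | .mem i j, v => E (v i) (v j)
  | .eq i j, v => v i = v j
  | .neg φ, v => ¬ Sat φ v
  | .and φ ψ, v => Sat φ v ∧ Sat ψ v
  | .all i φ, v => ∀ a, Sat φ (Function.update v i a)

/-- `x = ∅`. -/
def Emp (x : M) : Prop := ∀ z, ¬ E z x

/-- `y = x ∪ {x}`. -/
def Suc (x y : M) : Prop := ∀ z, E z y ↔ E z x ∨ z = x

/-- `w` is inductive. -/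
def Ind (w : M) : Prop := (∃ e, Emp E e ∧ E e w) ∧ ∀ x, E x w → ∃ y, Suc E x y ∧ E y w

/-- `(M, E)` is a model of ZFC. -/
structure ZFC : Prop where
  ext : ∀ x y, (∀ z, E z x ↔ E z y) → x = y
  found : ∀ x, (∃ y, E y x) → ∃ y, E y x ∧ ∀ z, E z y → ¬ E z x
  pair : ∀ x y, ∃ p, ∀ z, E z p ↔ z = x ∨ z = y
  union : ∀ x, ∃ u, ∀ z, E z u ↔ ∃ y, E y x ∧ E z y
  power : ∀ x, ∃ p, ∀ z, E z p ↔ ∀ t, E t z → E t x
  inf : ∃ w, Ind E w
  sep : ∀ (φ : Fml) (v : ℕ → M) (x : M), ∃ y, ∀ z,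
    E z y ↔ E z x ∧ Sat E φ (Function.update v 0 z)
  repl : ∀ (φ : Fml) (v : ℕ → M) (x : M),
    (∀ a, E a x → ∃! b, Sat E φ (Function.update (Function.update v 0 a) 1 b)) →
    ∃ y, ∀ b, E b y ↔ ∃ a, E a x ∧ Sat E φ (Function.update (Function.update v 0 a) 1 b)
  choice : ∀ x, (∀ y, E y x → ∃ z, E z y) →
    (∀ y y', E y x → E y' x → y ≠ y' → ∀ z, ¬ (E z y ∧ E z y')) →
    ∃ c, ∀ y, E y x → ∃! z, E z y ∧ E z c

/-- `w = ω`, the least inductive set. -/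
def Om (w : M) : Prop := Ind E w ∧ ∀ v, Ind E v → ∀ x, E x w → E x v

/-- `p` is the Kuratowski pair `{{x}, {x, y}}`. -/
def Pr (x y p : M) : Prop :=
  ∀ z, E z p ↔ (∀ t, E t z ↔ t = x) ∨ (∀ t, E t z ↔ t = x ∨ t = y)

/-- `(x, y) ∈ f`. -/
def Ap (f x y : M) : Prop := ∃ p, Pr E x y p ∧ E p f

/-- `f` is a function with domain `A` such that `R x (f x)` for all `x ∈ A`. -/
def Fn (A : M) (R : M → M → Prop) (f : M) : Prop :=
  (∀ p, E p f → ∃ x y, E x A ∧ Pr E x y p) ∧ (∀ x, E x A → ∃! y, Ap E f x y) ∧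
    ∀ x y, Ap E f x y → R x y

/-- `|{x | P x}| ≤ |{y | Q y}|`: some one-to-one function maps the first into the second. -/
def Le (P Q : M → Prop) : Prop :=
  ∃ f, (∀ x, P x → ∃ y, Q y ∧ Ap E f x y) ∧
    ∀ x x' y y', Ap E f x y → Ap E f x' y' → (x = x' ↔ y = y')

/-- `|X| < |Y|`. -/
def Lt (X Y : M) : Prop :=
  Le E (fun x => E x X) (fun y => E y Y) ∧ ¬ Le E (fun y => E y Y) (fun x => E x X)

end Pool.Agent.Lib.Forcing
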