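import Pool.Agent.Lib.Forcing.Model

/-!
Ordered pairs, graphs of functions, comparability of cardinals, finite counting.
-/

namespace Pool.Agent.Lib.Forcing

section Abstract

universe u

variable {M : Type u} {E : M → M → Prop}

theorem pr_unique (h : ZFC E) {x y p q : M} (hp : Pr E x y p) (hq : Pr E x y q) : p = q :=
  h.ext _ _ fun z => (hp z).trans (hq z).symm

theorem pr_inj (h : ZFC E) {x y x' y' p : M} (hp : Pr E x y p) (hq : Pr E x' y' p) :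
    x = x' ∧ y = y' := by
  have key : ∀ {x y x' y' : M}, Pr E x y p → Pr E x' y' p → x = x' ∧ (y = x' ∨ y = y') := by
    intro x y x' y' hp hq
    obtain ⟨s, hs⟩ := h.pair x x
    obtain ⟨d, hd⟩ := h.pair x y
    constructor
    · rcases (hq s).1 ((hp s).2 (Or.inl fun t => by simp [hs t])) with h1 | h1
      · exact (h1 x).1 ((hs x).2 (Or.inl rfl))
      · have := (hs x').1 ((h1 x').2 (Or.inl rfl))
        simp only [or_self] at this
        exact this.symm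
    · rcases (hq d).1 ((hp d).2 (Or.inr hd)) with h1 | h1
      · exact Or.inl ((h1 y).1 ((hd y).2 (Or.inr rfl)))
      · exact (h1 y).1 ((hd y).2 (Or.inr rfl))
  obtain ⟨a, b⟩ := key hp hq
  obtain ⟨c, d⟩ := key hq hp
  refine ⟨a, ?_⟩
  rcases b with b | b
  · rcases d with d | d
    · rw [b, d, a]
    · exact d.symm
  · exact b

theorem Fn.unique {A f x y y' : M} {R : M → M → Prop} (h : ZFC E) (hf : Fn E A R f)
    (h1 : Ap E f x y) (h2 : Ap E f x y') : y = y' := by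
  obtain ⟨p, hp, hpf⟩ := h1
  obtain ⟨a, b, ha, hab⟩ := hf.1 p hpf
  obtain ⟨rfl, rfl⟩ := pr_inj h hp hab
  exact (hf.2.1 x ha).unique ⟨p, hp, hpf⟩ h2

theorem Fn.dom {A f x y : M} {R : M → M → Prop} (h : ZFC E) (hf : Fn E A R f)
    (h1 : Ap E f x y) : E x A := by
  obtain ⟨p, hp, hpf⟩ := h1
  obtain ⟨a, b, ha, hab⟩ := hf.1 p hpf
  obtain ⟨rfl, rfl⟩ := pr_inj h hp hab
  exact ha

theorem Fn.ext {A A' f g : M} {R R' : M → M → Prop} (h : ZFC E) (hf : Fn E A R f)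
    (hg : Fn E A' R' g) (e : ∀ x y, Ap E f x y ↔ Ap E g x y) : f = g := by
  refine h.ext _ _ fun p => ⟨fun hp => ?_, fun hp => ?_⟩
  · obtain ⟨a, b, -, hab⟩ := hf.1 p hp
    obtain ⟨q, hq, hqg⟩ := (e a b).1 ⟨p, hab, hp⟩
    rwa [pr_unique h hab hq]
  · obtain ⟨a, b, -, hab⟩ := hg.1 p hp
    obtain ⟨q, hq, hqg⟩ := (e a b).2 ⟨p, hab, hp⟩
    rwa [pr_unique h hab hq]

theorem Fn.mono {A f : M} {R R' : M → M → Prop} (hf : Fn E A R f)
    (h : ∀ x y, Ap E f x y → R x y → R' x y) : Fn E A R' f :=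
  ⟨hf.1, hf.2.1, fun x y hxy => h x y hxy (hf.2.2 x y hxy)⟩

/-- Counting: an internal injection between classes that are externally listed. -/
theorem Le.card_le {P Q : M → Prop} (h : Le E P Q) {α β : Type*} (s : Finset α) (t : Finset β)
    (φ : α → M) (ψ : β → M) (hφ : Set.InjOn φ s) (hP : ∀ a ∈ s, P (φ a))
    (hQ : ∀ y, Q y → ∃ b ∈ t, y = ψ b) : s.card ≤ t.card := by
  classical
  obtain ⟨f, h1, h2⟩ := h
  have : ∀ a : s, ∃ b : t, Ap E f (φ a) (ψ b) := by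
    rintro ⟨a, ha⟩
    obtain ⟨y, hy, hf⟩ := h1 _ (hP a ha)
    obtain ⟨b, hb, rfl⟩ := hQ y hy
    exact ⟨⟨b, hb⟩, hf⟩
  choose g hg using this
  have hinj : Function.Injective g := by
    intro a a' e
    have := (h2 _ _ _ _ (hg a) (hg a')).2 (by rw [e])
    exact Subtype.ext (hφ a.2 a'.2 this)
  simpa using Fintype.card_le_of_injective g hinj

end Abstract

variable {B : Type} [CompleteBooleanAlgebra B]

/-- Ordered pair of names. -/
def opN (x y : Nm B) : Nm B := upN (upN x x) (upN x y)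

theorem Ult.pr_opN (U : Ult B) (x y : Nm B) : Pr U.E (U.cl x) (U.cl y) (U.cl (opN x y)) := by
  intro z
  rw [opN, U.E_upN]
  refine or_congr ⟨fun h t => ?_, fun h => U.ext' _ _ fun t => ?_⟩
    ⟨fun h t => ?_, fun h => U.ext' _ _ fun t => ?_⟩
  · rw [h, U.E_upN, or_self]
  · rw [h, U.E_upN, or_self]
  · rw [h, U.E_upN]
  · rw [h, U.E_upN]

theorem Ult.pr_iff (U : Ult B) (x y : Nm B) (p : U.M) :
    Pr U.E (U.cl x) (U.cl y) p ↔ p = U.cl (opN x y) :=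
  ⟨fun h => pr_unique U.zfc h (U.pr_opN x y), fun h => h ▸ U.pr_opN x y⟩

theorem Ult.ap_iff (U : Ult B) (f : U.M) (x y : Nm B) :
    Ap U.E f (U.cl x) (U.cl y) ↔ U.E (U.cl (opN x y)) f :=
  ⟨fun ⟨_, hp, h⟩ => (U.pr_iff x y _).1 hp ▸ h, fun h => ⟨_, U.pr_opN x y, h⟩⟩

theorem Ult.opN_inj (U : Ult B) {x y x' y' : Nm B} :
    U.cl (opN x y) = U.cl (opN x' y') ↔ U.cl x = U.cl x' ∧ U.cl y = U.cl y' := by
  constructor
  · intro h
    exact pr_inj U.zfc (U.pr_opN x y) (h ▸ U.pr_opN x' y')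
  · rintro ⟨h1, h2⟩
    rw [← U.pr_iff, ← h1, ← h2]
    exact U.pr_opN x y

/-- The name of a set of ordered pairs. -/
def grN {ι : Type} (X Y : ι → Nm B) (v : ι → B) : Nm B := ⟨ι, fun i => opN (X i) (Y i), v⟩

theorem Ult.ap_grN (U : Ult B) {ι : Type} (X Y : ι → Nm B) (v : ι → B) (i : ι) (h : U.P (v i)) :
    Ap U.E (U.cl (grN X Y v)) (U.cl (X i)) (U.cl (Y i)) :=
  (U.ap_iff _ _ _).2 (U.E_intro (grN X Y v) i h)

theorem ap_elim {ι : Type} (X Y : ι → Nm B) (v : ι → B) (P : ∀ U : Ult B, U.M → U.M → Prop)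
    [∀ x y, Rep (fun U => P U (U.cl x) (U.cl y))]
    (h : ∀ U i, U.P (v i) → P U (U.cl (X i)) (U.cl (Y i))) (U : Ult B) (a b : U.M)
    (hab : Ap U.E (U.cl (grN X Y v)) a b) : P U a b := by
  obtain ⟨p, hp, h'⟩ := hab
  refine mem_elim (grN X Y v) (fun U p => ∀ a b, Pr U.E a b p → P U a b) ?_ U p h' a b hp
  intro V i hi a b hp
  obtain ⟨rfl, rfl⟩ := pr_inj V.zfc hp (V.pr_opN (X i) (Y i))
  exact h V i hi

theorem Ult.ap_grN_fin (U : Ult B) {ι : Type} [Finite ι] (X Y : ι → Nm B) (v : ι → B)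
    (a b : U.M) : Ap U.E (U.cl (grN X Y v)) a b ↔
      ∃ i, U.P (v i) ∧ a = U.cl (X i) ∧ b = U.cl (Y i) := by
  obtain ⟨a, rfl⟩ := U.cl_surj a
  obtain ⟨b, rfl⟩ := U.cl_surj b
  have : Finite (grN X Y v).ι := ‹Finite ι›
  rw [U.ap_iff, U.E_fin]
  simp only [grN, U.opN_inj]

theorem grN_dom {ι : Type} (X Y : ι → Nm B) (v : ι → B) (A : Nm B)
    (h : ∀ (U : Ult B) i, U.P (v i) → U.E (U.cl (X i)) (U.cl A)) (U : Ult B) (p : U.M)
    (hp : U.E p (U.cl (grN X Y v))) : ∃ x y, U.E x (U.cl A) ∧ Pr U.E x y p :=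
  mem_elim (grN X Y v) (fun U p => ∃ x y, U.E x (U.cl A) ∧ Pr U.E x y p)
    (fun V i hi => ⟨_, _, h V i hi, V.pr_opN _ _⟩) U p hp

/-- Any two sets of the quotient model are comparable in size. -/
theorem Ult.le_total (U : Ult B) (X Y : U.M) :
    Le U.E (fun x => U.E x X) (fun y => U.E y Y) ∨ Le U.E (fun y => U.E y Y) (fun x => U.E x X) := by
  classical
  obtain ⟨X, rfl⟩ := U.cl_surj X
  obtain ⟨Y, rfl⟩ := U.cl_surj Y
  let d : X.ι × Y.ι → X.ι × Y.ι → B := fun s t =>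
    bv (fun U => U.cl (X.fn s.1) = U.cl (X.fn t.1) ↔ U.cl (Y.fn s.2) = U.cl (Y.fn t.2))
  let S : Set (X.ι × Y.ι → B) :=
    {v | (∀ s, v s ≤ X.val s.1 ⊓ Y.val s.2) ∧ ∀ s t, v s ⊓ v t ≤ d s t}
  obtain ⟨v, hv⟩ : ∃ v, Maximal (· ∈ S) v := by
    refine zorn_le₀ S fun c hc hchain => ⟨fun s => ⨆ w : c, w.1 s, ⟨?_, ?_⟩, ?_⟩
    · exact fun s => iSup_le fun w => (hc w.2).1 s
    · intro s t
      rw [iSup_inf_iSup]
      refine iSup_le fun ⟨w, w'⟩ => ?_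
      rcases hchain.total w.2 w'.2 with h | h
      · exact (inf_le_inf_right _ (h s)).trans ((hc w'.2).2 s t)
      · exact (inf_le_inf_left _ (h t)).trans ((hc w.2).2 s t)
    · exact fun w hw s => le_iSup_of_le (⟨w, hw⟩ : c) le_rfl
  let G := grN (fun s : X.ι × Y.ι => X.fn s.1) (fun s => Y.fn s.2) v
  let G' := grN (fun s : X.ι × Y.ι => Y.fn s.2) (fun s => X.fn s.1) v
  have hd : ∀ (V : Ult B) s t, V.P (v s) → V.P (v t) →
      (V.cl (X.fn s.1) = V.cl (X.fn t.1) ↔ V.cl (Y.fn s.2) = V.cl (Y.fn t.2)) :=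
    fun V s t h1 h2 => (bv_iff _ V).1 (V.mono (hv.prop.2 s t) ((V.inf _ _).2 ⟨h1, h2⟩))
  have hG : ∀ (V : Ult B) x y, Ap V.E (V.cl G) x y → ∀ x' y', Ap V.E (V.cl G) x' y' →
      (x = x' ↔ y = y') := by
    refine ap_elim _ _ v (fun V x y => ∀ x' y', Ap V.E (V.cl G) x' y' → (x = x' ↔ y = y'))
      fun V s hs x' y' h => ?_
    exact ap_elim _ _ v (fun V x' y' => V.P (v s) →
      (V.cl (X.fn s.1) = x' ↔ V.cl (Y.fn s.2) = y')) (fun W t ht hs => hd W s t hs ht) V x' y' h hs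
  have hG' : ∀ (V : Ult B) x y, Ap V.E (V.cl G') x y → ∀ x' y', Ap V.E (V.cl G') x' y' →
      (x = x' ↔ y = y') := by
    refine ap_elim _ _ v (fun V x y => ∀ x' y', Ap V.E (V.cl G') x' y' → (x = x' ↔ y = y'))
      fun V s hs x' y' h => ?_
    exact ap_elim _ _ v (fun V x' y' => V.P (v s) →
      (V.cl (Y.fn s.2) = x' ↔ V.cl (X.fn s.1) = y'))
      (fun W t ht hs => (hd W s t hs ht).symm) V x' y' h hs
  have hmain : ∀ (V : Ult B) (s : X.ι × Y.ι), V.P (X.val s.1) → V.P (Y.val s.2) →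
      (∃ y, V.E y (V.cl Y) ∧ Ap V.E (V.cl G) (V.cl (X.fn s.1)) y) ∨
      (∃ x, V.E x (V.cl X) ∧ Ap V.E (V.cl G') (V.cl (Y.fn s.2)) x) := by
    intro V s h1 h2
    by_contra hcon
    let c : B := bv (fun V => V.P (X.val s.1) ∧ V.P (Y.val s.2) ∧
      ¬ ((∃ y, V.E y (V.cl Y) ∧ Ap V.E (V.cl G) (V.cl (X.fn s.1)) y) ∨
      (∃ x, V.E x (V.cl X) ∧ Ap V.E (V.cl G') (V.cl (Y.fn s.2)) x)))
    have hcv : ∀ t (W : Ult B), W.P c → W.P (v t) → W.cl (X.fn s.1) ≠ W.cl (X.fn t.1) ∧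
        W.cl (Y.fn s.2) ≠ W.cl (Y.fn t.2) := by
      intro t W hc ht
      have hc' := ((bv_iff _ W).1 hc).2.2
      have ht' := (W.inf _ _).1 (W.mono (hv.prop.1 t) ht)
      refine ⟨fun e => hc' (Or.inl ⟨_, W.E_intro Y t.2 ht'.2, ?_⟩),
        fun e => hc' (Or.inr ⟨_, W.E_intro X t.1 ht'.1, ?_⟩)⟩
      · rw [e]
        exact W.ap_grN _ _ v t ht
      · rw [e]
        exact W.ap_grN (fun s : X.ι × Y.ι => Y.fn s.2) (fun s => X.fn s.1) v t ht
    let v' : X.ι × Y.ι → B := fun t => v t ⊔ if t = s then c else ⊥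
    have hv' : ∀ t (W : Ult B), W.P (v' t) → W.P (v t) ∨ (t = s ∧ W.P c) := by
      intro t W h
      simp only [v', W.sup] at h
      refine h.imp_right fun h => ?_
      split_ifs at h with e
      · exact ⟨e, h⟩
      · exact (W.bot h).elim
    have hS : v' ∈ S := by
      refine ⟨fun t => Ult.le_of fun W h => ?_, fun t t' => Ult.le_of fun W h => ?_⟩
      · rcases hv' t W h with h | ⟨rfl, h⟩
        · exact W.mono (hv.prop.1 t) h
        · have := (bv_iff _ W).1 h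
          exact (W.inf _ _).2 ⟨this.1, this.2.1⟩
      · rw [W.inf] at h
        simp only [d, bv_iff]
        rcases hv' t W h.1 with a1 | ⟨e1, a1⟩ <;> rcases hv' t' W h.2 with a2 | ⟨e2, a2⟩
        · exact hd W t t' a1 a2
        · rw [e2]
          exact iff_of_false (hcv t W a2 a1).1.symm (hcv t W a2 a1).2.symm
        · rw [e1]
          exact iff_of_false (hcv t' W a1 a2).1 (hcv t' W a1 a2).2
        · simp [e1, e2]
    have hle : v' ≤ v := hv.le_of_ge hS fun t => le_sup_left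
    have hc : V.P c := (bv_iff _ V).2 ⟨h1, h2, hcon⟩
    have : V.P (v s) := V.mono (le_trans (by simp [v']) (hle s)) hc
    exact (hcv s V hc this).1 rfl
  by_contra hcon
  rw [not_or] at hcon
  have h1 : ∃ x, U.E x (U.cl X) ∧ ¬ ∃ y, U.E y (U.cl Y) ∧ Ap U.E (U.cl G) x y := by
    by_contra h
    push Not at h
    exact hcon.1 ⟨_, h, fun x x' y y' a b => hG U x y a x' y' b⟩
  have h2 : ∃ y, U.E y (U.cl Y) ∧ ¬ ∃ x, U.E x (U.cl X) ∧ Ap U.E (U.cl G') y x := by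
    by_contra h
    push Not at h
    exact hcon.2 ⟨_, h, fun x x' y y' a b => hG' U x y a x' y' b⟩
  obtain ⟨x, hx, h1⟩ := h1
  obtain ⟨y, hy, h2⟩ := h2
  have := mem_elim X (fun V x => ∀ y, V.E y (V.cl Y) →
      (∃ y, V.E y (V.cl Y) ∧ Ap V.E (V.cl G) x y) ∨ (∃ x, V.E x (V.cl X) ∧ Ap V.E (V.cl G') y x))
    (fun V i hi y hy => mem_elim Y (fun V y => V.P (X.val i) →
      (∃ y, V.E y (V.cl Y) ∧ Ap V.E (V.cl G) (V.cl (X.fn i)) y) ∨
        (∃ x, V.E x (V.cl X) ∧ Ap V.E (V.cl G') y x))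
      (fun W j hj hi => hmain W (i, j) hi hj) V y hy hi) U x hx y hy
  exact this.elim h1 h2

theorem Ult.lt_of_not_le (U : Ult B) {X Y : U.M}
    (h : ¬ Le U.E (fun y => U.E y Y) (fun x => U.E x X)) : Lt U.E X Y :=
  ⟨(U.le_total X Y).resolve_right h, h⟩

/-- The name of a finite sequence of numerals. -/
def seqN {n : ℕ} (s : Fin n → ℕ) : Nm B :=
  grN (fun k : Fin n => numN k) (fun k => numN (s k)) (fun _ => ⊤)

theorem Ult.ap_seqN (U : Ult B) {n : ℕ} (s : Fin n → ℕ) (a b : U.M) :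
    Ap U.E (U.cl (seqN s)) a b ↔ ∃ k : Fin n, a = U.num k ∧ b = U.num (s k) := by
  simp [seqN, U.ap_grN_fin, U.top]

theorem Ult.ap_seqN_num (U : Ult B) {n : ℕ} (s : Fin n → ℕ) (k : Fin n) (b : U.M) :
    Ap U.E (U.cl (seqN s)) (U.num k) b ↔ b = U.num (s k) := by
  rw [U.ap_seqN]
  refine ⟨fun ⟨j, h1, h2⟩ => ?_, fun h => ⟨k, rfl, h⟩⟩
  rw [h2, Fin.ext (U.num_inj.1 h1)]

theorem Ult.fn_seqN (U : Ult B) {n : ℕ} (s : Fin n → ℕ) {R : U.M → U.M → Prop}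
    (h : ∀ k : Fin n, R (U.num k) (U.num (s k))) : Fn U.E (U.num n) R (U.cl (seqN s)) := by
  refine ⟨grN_dom _ _ _ _ (fun V k _ => V.num_mem_num.2 k.2) U, fun x hx => ?_, fun x y hxy => ?_⟩
  · obtain ⟨k, hk, rfl⟩ := (U.E_num n x).1 hx
    exact ⟨_, (U.ap_seqN_num s ⟨k, hk⟩ _).2 rfl, fun y hy => (U.ap_seqN_num s ⟨k, hk⟩ _).1 hy⟩
  · obtain ⟨k, rfl, rfl⟩ := (U.ap_seqN s x y).1 hxy
    exact h k

theorem Ult.seqN_inj (U : Ult B) {n : ℕ} {s t : Fin n → ℕ} (h : U.cl (seqN s) = U.cl (seqN t)) :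
    s = t := by
  funext k
  have := (U.ap_seqN_num s k _).2 rfl
  rw [h, U.ap_seqN_num] at this
  exact U.num_inj.1 this

theorem Ult.eq_seqN (U : Ult B) {n : ℕ} {R : U.M → U.M → Prop} {f : U.M}
    (hf : Fn U.E (U.num n) R f) (β : Fin n → ℕ)
    (h : ∀ (k : Fin n) y, R (U.num k) y → U.E y (U.num (β k))) :
    ∃ s : Fin n → ℕ, (∀ k, s k < β k) ∧ f = U.cl (seqN s) := by
  have : ∀ k : Fin n, ∃ j < β k, Ap U.E f (U.num k) (U.num j) := by
    intro k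
    obtain ⟨y, hy, -⟩ := hf.2.1 _ (U.num_mem_num.2 k.2)
    obtain ⟨j, hj, rfl⟩ := (U.E_num _ _).1 (h k y (hf.2.2 _ _ hy))
    exact ⟨j, hj, hy⟩
  choose s hs1 hs2 using this
  refine ⟨s, hs1, hf.ext U.zfc (U.fn_seqN s (R := fun _ _ => True) fun _ => trivial) fun x y => ?_⟩
  rw [U.ap_seqN]
  constructor
  · intro hxy
    obtain ⟨k, hk, rfl⟩ := (U.E_num n x).1 (hf.dom U.zfc hxy)
    exact ⟨⟨k, hk⟩, rfl, hf.unique U.zfc hxy (hs2 ⟨k, hk⟩)⟩
  · rintro ⟨k, rfl, rfl⟩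
    exact hs2 k

end Pool.Agent.Lib.Forcing
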