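import Pool.Agent.Lib.Forcing.Func

/-!
The measure algebra of a finite measure space as a complete Boolean algebra, and the transfer
between forcing statements about reals and almost-everywhere statements.
-/

open MeasureTheory Filter Set

namespace Pool.Agent.Lib.Forcing

variable {Ω : Type} [MeasurableSpace Ω] (μ : Measure Ω)

/-- Almost everywhere equality of measurable sets. -/
def mSetoid : Setoid {s : Set Ω // MeasurableSet s} where
  r s t := ∀ᵐ w ∂μ, (w ∈ s.1 ↔ w ∈ t.1)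
  iseqv := ⟨fun _ => ae_of_all _ fun _ => Iff.rfl, fun h => h.mono fun _ h => h.symm,
    fun h1 h2 => (h1.and h2).mono fun _ h => h.1.trans h.2⟩

/-- The measure algebra. -/
def MAlg : Type := Quotient (mSetoid μ)

namespace MAlg

variable {μ}

/-- The class of a measurable set. -/
def mk (s : Set Ω) (hs : MeasurableSet s) : MAlg μ := Quotient.mk (mSetoid μ) ⟨s, hs⟩

theorem ind {p : MAlg μ → Prop} (h : ∀ s hs, p (mk s hs)) (a : MAlg μ) : p a :=
  Quotient.ind (fun s => h s.1 s.2) a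

instance : LE (MAlg μ) := ⟨Quotient.lift₂ (fun s t => ∀ᵐ w ∂μ, w ∈ s.1 → w ∈ t.1) (by
  intro s t s' t' h1 h2
  refine propext ⟨fun h => ?_, fun h => ?_⟩ <;>
  · filter_upwards [h, h1, h2] with w a b c
    tauto)⟩

theorem mk_le {s t : Set Ω} {hs : MeasurableSet s} {ht : MeasurableSet t} :
    (mk s hs : MAlg μ) ≤ mk t ht ↔ ∀ᵐ w ∂μ, w ∈ s → w ∈ t := Iff.rfl

instance : Max (MAlg μ) := ⟨Quotient.map₂ (fun s t => ⟨s.1 ∪ t.1, s.2.union t.2⟩) (by
  intro s t h1 s' t' h2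
  filter_upwards [h1, h2] with w a b
  simp only [mem_union, a, b])⟩

instance : Min (MAlg μ) := ⟨Quotient.map₂ (fun s t => ⟨s.1 ∩ t.1, s.2.inter t.2⟩) (by
  intro s t h1 s' t' h2
  filter_upwards [h1, h2] with w a b
  simp only [mem_inter_iff, a, b])⟩

instance : Compl (MAlg μ) := ⟨Quotient.map (fun s => ⟨s.1ᶜ, s.2.compl⟩) (by
  intro s t h1
  filter_upwards [h1] with w a
  simp only [mem_compl_iff, a])⟩

theorem mk_sup {s t : Set Ω} {hs : MeasurableSet s} {ht : MeasurableSet t} :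
    (mk s hs : MAlg μ) ⊔ mk t ht = mk (s ∪ t) (hs.union ht) := rfl

theorem mk_inf {s t : Set Ω} {hs : MeasurableSet s} {ht : MeasurableSet t} :
    (mk s hs : MAlg μ) ⊓ mk t ht = mk (s ∩ t) (hs.inter ht) := rfl

theorem mk_compl {s : Set Ω} {hs : MeasurableSet s} :
    (mk s hs : MAlg μ)ᶜ = mk sᶜ hs.compl := rfl

instance : BooleanAlgebra (MAlg μ) where
  le_refl := ind fun _ _ => ae_of_all _ fun _ => id
  le_trans := ind fun _ _ => ind fun _ _ => ind fun _ _ h1 h2 =>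
    (Filter.Eventually.and h1 h2).mono fun _ h x => h.2 (h.1 x)
  le_antisymm := ind fun _ _ => ind fun _ _ h1 h2 =>
    Quotient.sound ((Filter.Eventually.and h1 h2).mono fun _ h => ⟨h.1, h.2⟩)
  sup := max
  inf := min
  le_sup_left := ind fun _ _ => ind fun _ _ => ae_of_all _ fun _ => Or.inl
  le_sup_right := ind fun _ _ => ind fun _ _ => ae_of_all _ fun _ => Or.inr
  sup_le := ind fun _ _ => ind fun _ _ => ind fun _ _ h1 h2 =>
    (Filter.Eventually.and h1 h2).mono fun _ h x => x.elim h.1 h.2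
  inf_le_left := ind fun _ _ => ind fun _ _ => ae_of_all _ fun _ => And.left
  inf_le_right := ind fun _ _ => ind fun _ _ => ae_of_all _ fun _ => And.right
  le_inf := ind fun _ _ => ind fun _ _ => ind fun _ _ h1 h2 =>
    (Filter.Eventually.and h1 h2).mono fun _ h x => ⟨h.1 x, h.2 x⟩
  le_sup_inf := ind fun _ _ => ind fun _ _ => ind fun _ _ => ae_of_all _ fun _ h => by
    simp only [mem_inter_iff, mem_union] at h ⊢
    tauto
  top := mk univ MeasurableSet.univ
  bot := mk ∅ MeasurableSet.empty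
  inf_compl_le_bot := ind fun _ _ => ae_of_all _ fun _ h => h.2 h.1
  top_le_sup_compl := ind fun _ _ => ae_of_all _ fun _ _ => em _
  le_top := ind fun _ _ => ae_of_all _ fun _ _ => trivial
  bot_le := ind fun _ _ => ae_of_all _ fun _ h => h.elim

theorem isLUB_iUnion {ι : Type*} [Countable ι] (s : ι → Set Ω) (hs : ∀ i, MeasurableSet (s i)) :
    IsLUB (range fun i => (mk (s i) (hs i) : MAlg μ)) (mk (⋃ i, s i) (MeasurableSet.iUnion hs)) := by
  constructor
  · rintro _ ⟨i, rfl⟩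
    exact ae_of_all _ fun w h => mem_iUnion.2 ⟨i, h⟩
  · refine ind fun t ht h => ?_
    have : ∀ i, ∀ᵐ w ∂μ, w ∈ s i → w ∈ t := fun i => h ⟨i, rfl⟩
    filter_upwards [ae_all_iff.2 this] with w hw hw'
    obtain ⟨i, hi⟩ := mem_iUnion.1 hw'
    exact hw i hi

theorem exists_isLUB [IsFiniteMeasure μ] (S : Set (MAlg μ)) : ∃ a, IsLUB S a := by
  let 𝒮 : Set (Set Ω) := {s | ∃ hs, mk s hs ∈ S}
  let R : Set ENNReal := {r | ∃ T ⊆ 𝒮, T.Countable ∧ r = μ (⋃₀ T)}
  obtain ⟨u, -, hu, huR⟩ := exists_seq_tendsto_sSup (S := R) ⟨_, ∅, by simp, by simp, rfl⟩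
    (OrderTop.bddAbove R)
  choose T hT1 hT2 hT3 using huR
  let T' := ⋃ n, T n
  have h1 : T' ⊆ 𝒮 := iUnion_subset hT1
  have h2 : T'.Countable := countable_iUnion hT2
  have hm : MeasurableSet (⋃₀ T') := MeasurableSet.sUnion h2 fun s hs => (h1 hs).1
  have h3 : sSup R ≤ μ (⋃₀ T') := by
    refine le_of_tendsto' hu fun n => ?_
    rw [hT3 n]
    exact measure_mono (sUnion_mono (subset_iUnion T n))
  refine ⟨mk _ hm, ind fun s hs h => ?_, ind fun t ht h => ?_⟩
  · have h4 : μ (⋃₀ (insert s T')) ≤ μ (⋃₀ T') :=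
      le_trans (le_sSup (s := R) ⟨insert s T', insert_subset ⟨hs, h⟩ h1, h2.insert s, rfl⟩) h3
    rw [sUnion_insert] at h4
    have h5 := ae_eq_of_subset_of_measure_ge (subset_union_right (s := s)) h4
      hm.nullMeasurableSet (measure_ne_top _ _)
    filter_upwards [h5] with w hw hws
    exact (eq_iff_iff.1 hw).2 (Or.inl hws)
  · have : ∀ s ∈ T', ∀ᵐ w ∂μ, w ∈ s → w ∈ t := fun s hs => h (h1 hs).2
    filter_upwards [(ae_ball_iff h2).2 this] with w hw ⟨s, hs, hws⟩
    exact hw s hs hws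

noncomputable instance [IsFiniteMeasure μ] : SupSet (MAlg μ) := ⟨fun S => (exists_isLUB S).choose⟩

noncomputable instance [IsFiniteMeasure μ] : CompleteBooleanAlgebra (MAlg μ) where
  __ := (inferInstance : BooleanAlgebra (MAlg μ))
  __ := completeLatticeOfSup (MAlg μ) fun S => (exists_isLUB S).choose_spec

end MAlg

variable {μ} [IsFiniteMeasure μ]

open Classical in
/-- The Boolean value of a measurable predicate. -/
noncomputable def cls (Q : Ω → Prop) : MAlg μ :=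
  if h : MeasurableSet {w | Q w} then MAlg.mk _ h else ⊥

omit [IsFiniteMeasure μ] in
theorem cls_eq {Q : Ω → Prop} (h : MeasurableSet {w | Q w}) : (cls Q : MAlg μ) = MAlg.mk _ h :=
  dif_pos h

omit [IsFiniteMeasure μ] in
theorem exists_cls (c : MAlg μ) : ∃ Q : Ω → Prop, MeasurableSet {w | Q w} ∧ c = cls Q :=
  MAlg.ind (p := fun c => ∃ Q : Ω → Prop, MeasurableSet {w | Q w} ∧ c = cls Q)
    (fun s hs => ⟨fun w => w ∈ s, hs, (cls_eq hs).symm⟩) c

omit [IsFiniteMeasure μ] in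
theorem cls_mono {Q R : Ω → Prop} (hQ : MeasurableSet {w | Q w}) (hR : MeasurableSet {w | R w})
    (h : ∀ᵐ w ∂μ, Q w → R w) : (cls Q : MAlg μ) ≤ cls R := by
  rw [cls_eq hQ, cls_eq hR]
  exact h

theorem Ult.not_cls_of_null (U : Ult (MAlg μ)) {Q : Ω → Prop} (hQ : MeasurableSet {w | Q w})
    (h : μ {w | Q w} = 0) : ¬ U.P (cls Q) := fun hU => by
  refine U.bot (U.mono ?_ hU)
  rw [cls_eq hQ]
  exact (measure_eq_zero_iff_ae_notMem.1 h).mono fun w hw hw' => hw hw'

/-- Transfer: the Boolean value of `P` is the class of the measurable predicate `Q`. -/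
class Tr (P : Ult (MAlg μ) → Prop) (Q : outParam (Ω → Prop)) : Prop where
  meas : MeasurableSet {w | Q w}
  iff : ∀ U, P U ↔ U.P (cls Q)

namespace Tr

theorem rep (P : Ult (MAlg μ) → Prop) {Q : Ω → Prop} [h : Tr P Q] : Rep P :=
  ⟨_, fun U => (h.iff U).symm⟩

theorem of_rep (P : Ult (MAlg μ) → Prop) [Rep P] : ∃ Q, Tr P Q := by
  obtain ⟨Q, h1, h2⟩ := exists_cls (bv P)
  exact ⟨Q, h1, fun U => by rw [← h2, bv_iff]⟩

theorem congr {P P' : Ult (MAlg μ) → Prop} {Q Q' : Ω → Prop} (h : Tr P Q) (e : ∀ U, P U ↔ P' U)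
    (e' : ∀ w, Q w ↔ Q' w) : Tr P' Q' := by
  obtain rfl : P = P' := funext fun U => propext (e U)
  obtain rfl : Q = Q' := funext fun U => propext (e' U)
  exact h

theorem cls' {Q : Ω → Prop} (h : MeasurableSet {w | Q w}) :
    Tr (fun U : Ult (MAlg μ) => U.P (cls Q)) Q := ⟨h, fun _ => Iff.rfl⟩

theorem imp_of_ae {P P' : Ult (MAlg μ) → Prop} {Q Q' : Ω → Prop} (h : Tr P Q) (h' : Tr P' Q')
    (e : ∀ᵐ w ∂μ, Q w → Q' w) (U : Ult (MAlg μ)) (hU : P U) : P' U :=
  (h'.iff U).2 (U.mono (cls_mono h.meas h'.meas e) ((h.iff U).1 hU))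

theorem ae_of_imp {P P' : Ult (MAlg μ) → Prop} {Q Q' : Ω → Prop} (h : Tr P Q) (h' : Tr P' Q')
    (e : ∀ U, P U → P' U) : ∀ᵐ w ∂μ, Q w → Q' w := by
  have : (cls Q : MAlg μ) ≤ cls Q' :=
    Ult.le_of fun U hU => (h'.iff U).1 (e U ((h.iff U).2 hU))
  rwa [cls_eq h.meas, cls_eq h'.meas] at this

instance (priority := low) const (p : Prop) : Tr (fun _ : Ult (MAlg μ) => p) (fun _ => p) := by
  refine ⟨MeasurableSet.const p, fun U => ?_⟩
  rw [cls_eq (MeasurableSet.const p)]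
  by_cases h : p
  · simp only [h, true_iff]
    exact U.top
  · simp only [h, false_iff]
    exact U.bot

instance not (P : Ult (MAlg μ) → Prop) (Q : Ω → Prop) [h : Tr P Q] :
    Tr (fun U => ¬ P U) (fun w => ¬ Q w) :=
  ⟨h.meas.compl, fun U => by
    rw [h.iff, ← U.compl, cls_eq h.meas, cls_eq (Q := fun w => ¬ Q w) h.meas.compl]; rfl⟩

instance and (P P' : Ult (MAlg μ) → Prop) (Q Q' : Ω → Prop) [h : Tr P Q] [h' : Tr P' Q'] :
    Tr (fun U => P U ∧ P' U) (fun w => Q w ∧ Q' w) :=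
  ⟨h.meas.inter h'.meas, fun U => by
    rw [h.iff, h'.iff, ← U.inf, cls_eq h.meas, cls_eq h'.meas,
      cls_eq (Q := fun w => Q w ∧ Q' w) (h.meas.inter h'.meas)]; rfl⟩

instance imp (P P' : Ult (MAlg μ) → Prop) (Q Q' : Ω → Prop) [h : Tr P Q] [h' : Tr P' Q'] :
    Tr (fun U => P U → P' U) (fun w => Q w → Q' w) :=
  (inferInstance : Tr (fun U => ¬ (P U ∧ ¬ P' U)) _).congr (fun _ => by tauto) (fun _ => by tauto)

instance or (P P' : Ult (MAlg μ) → Prop) (Q Q' : Ω → Prop) [h : Tr P Q] [h' : Tr P' Q'] :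
    Tr (fun U => P U ∨ P' U) (fun w => Q w ∨ Q' w) :=
  (inferInstance : Tr (fun U => ¬ P U → P' U) _).congr (fun _ => by tauto) (fun _ => by tauto)

theorem iSup' {ι : Type} [Countable ι] (Q : ι → Ω → Prop) (h : ∀ i, MeasurableSet {w | Q i w}) :
    MeasurableSet {w | ∃ i, Q i w} ∧ (cls fun w => ∃ i, Q i w : MAlg μ) = ⨆ i, cls (Q i) := by
  have e : {w | ∃ i, Q i w} = ⋃ i, {w | Q i w} := by ext; simp
  have hm : MeasurableSet {w | ∃ i, Q i w} := e ▸ MeasurableSet.iUnion h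
  refine ⟨hm, ?_⟩
  have := (MAlg.isLUB_iUnion (μ := μ) _ h).iSup_eq
  simp only [cls_eq (h _), this, cls_eq hm, e]

instance ex_om (P : ∀ U : Ult (MAlg μ), U.M → Prop) [∀ x, Rep (fun U => P U (U.cl x))]
    (Q : ℕ → Ω → Prop) [h : ∀ n, Tr (fun U => P U (U.num n)) (Q n)] :
    Tr (fun U => ∃ a, U.E a U.om ∧ P U a) (fun w => ∃ n, Q n w) := by
  obtain ⟨h1, h2⟩ := iSup' (μ := μ) Q fun n => (h n).meas
  refine ⟨h1, fun U => ?_⟩
  rw [h2]
  constructor
  · rintro ⟨a, ha, hP⟩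
    exact om_elim (fun U a => P U a → U.P (⨆ i, cls (Q i)))
      (fun V n hP => V.mono (le_iSup _ n) (((h n).iff V).1 hP)) U a ha hP
  · exact sup_elim _ (fun U => ∃ a, U.E a U.om ∧ P U a)
      (fun V n hV => ⟨_, V.num_mem_om n, ((h n).iff V).2 hV⟩) U

instance all_om (P : ∀ U : Ult (MAlg μ), U.M → Prop) [∀ x, Rep (fun U => P U (U.cl x))]
    (Q : ℕ → Ω → Prop) [h : ∀ n, Tr (fun U => P U (U.num n)) (Q n)] :
    Tr (fun U => ∀ a, U.E a U.om → P U a) (fun w => ∀ n, Q n w) :=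
  (inferInstance : Tr (fun U : Ult (MAlg μ) => ¬ ∃ a, U.E a U.om ∧ ¬ P U a) _).congr
    (fun _ => by simp) (fun _ => by simp)

instance mem_num (a b : ℕ) :
    Tr (fun U : Ult (MAlg μ) => U.E (U.num a) (U.num b)) (fun _ => a < b) :=
  (const (a < b)).congr (fun U => U.num_mem_num.symm) fun _ => Iff.rfl

instance mem_om (a : ℕ) : Tr (fun U : Ult (MAlg μ) => U.E (U.num a) U.om) (fun _ => True) :=
  (const True).congr (fun U => (iff_true_intro (U.num_mem_om a)).symm) fun _ => Iff.rfl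

instance suc_num (a b : ℕ) :
    Tr (fun U : Ult (MAlg μ) => Suc U.E (U.num a) (U.num b)) (fun _ => b = a + 1) :=
  (const _).congr (fun U => by rw [U.suc_iff, U.num_inj]) fun _ => Iff.rfl

instance emp_num (a : ℕ) :
    Tr (fun U : Ult (MAlg μ) => Emp U.E (U.num a)) (fun _ => a = 0) :=
  (const _).congr (fun U => by rw [U.emp_iff, U.num_inj]) fun _ => Iff.rfl

end Tr

/-- A countable conjunction is forced by a represented predicate that forces each part. -/
theorem cls_all {ι : Type} [Countable ι] (Q : ι → Ω → Prop) (hQ : ∀ i, MeasurableSet {w | Q i w})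
    (P : Ult (MAlg μ) → Prop) [Rep P] (h : ∀ U i, P U → U.P (cls (Q i))) (U : Ult (MAlg μ))
    (hU : P U) : U.P (cls fun w => ∀ i, Q i w) := by
  obtain ⟨R, hR⟩ := Tr.of_rep P
  have hm : MeasurableSet {w | ∀ i, Q i w} := by
    rw [Set.ofPred_forall]
    exact MeasurableSet.iInter hQ
  refine hR.imp_of_ae (Tr.cls' hm) ?_ U hU
  have := fun i => hR.ae_of_imp (Tr.cls' (hQ i)) fun U => h U i
  filter_upwards [ae_all_iff.2 this] with w hw hR i using hw i hR

/-- Finitely many measurable predicates are decided by `U` as at the points of a set in `U`. -/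
theorem cls_of_atom {ι : Type} [Finite ι] (T : ι → Ω → Prop) (hT : ∀ i, MeasurableSet {w | T i w})
    (U : Ult (MAlg μ)) {Q : Ω → Prop} (hQ : MeasurableSet {w | Q w})
    (h : ∀ w, (∀ i, T i w ↔ U.P (cls (T i))) → Q w) : U.P (cls Q) := by
  classical
  have := Fintype.ofFinite ι
  have key : ∀ s : Finset ι, MeasurableSet {w | ∀ i ∈ s, (T i w ↔ U.P (cls (T i)))} ∧
      U.P (cls fun w => ∀ i ∈ s, (T i w ↔ U.P (cls (T i)))) := by
    intro s
    induction s using Finset.induction_on with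
    | empty => simpa using ((Tr.const (μ := μ) True).iff U).1 trivial
    | insert a s _ ih =>
      simp only [Finset.forall_mem_insert]
      by_cases ha : U.P (cls (T a))
      · simp only [ha, iff_true]
        have := @Tr.and _ _ μ _ _ _ _ _ (Tr.cls' (hT a)) (Tr.cls' ih.1)
        exact ⟨this.meas, (this.iff U).1 ⟨ha, ih.2⟩⟩
      · simp only [ha, iff_false]
        have := @Tr.and _ _ μ _ _ _ _ _ (@Tr.not _ _ μ _ _ _ (Tr.cls' (hT a))) (Tr.cls' ih.1)
        exact ⟨this.meas, (this.iff U).1 ⟨ha, ih.2⟩⟩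
  refine U.mono (cls_mono (key Finset.univ).1 hQ (ae_of_all _ fun w hw => h w fun i => ?_))
    (key Finset.univ).2
  exact hw i (Finset.mem_univ i)

end Pool.Agent.Lib.Forcing
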