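import Pool.Agent.Lib.Forcing.Rep

/-!
The quotient of the names by an ultrafilter is a model of ZFC.
-/

namespace Pool.Agent.Lib.Forcing

variable {B : Type} [CompleteBooleanAlgebra B]

/-- The empty name. -/
def empN : Nm B := ⟨PEmpty, PEmpty.elim, PEmpty.elim⟩

/-- `insert a x`. -/
def insN (a x : Nm B) : Nm B :=
  ⟨Option x.ι, fun o => o.elim a x.fn, fun o => o.elim ⊤ x.val⟩

/-- Unordered pair. -/
def upN (a b : Nm B) : Nm B := ⟨Bool, fun o => cond o a b, fun _ => ⊤⟩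

/-- Numerals. -/
def numN : ℕ → Nm B
  | 0 => empN
  | n + 1 => insN (numN n) (numN n)

/-- The name of `ω`. -/
def omN : Nm B := ⟨ℕ, numN, fun _ => ⊤⟩

theorem Ult.emp_empN (U : Ult B) : Emp U.E (U.cl empN) := fun a h => by
  have : Finite (empN : Nm B).ι := inferInstanceAs (Finite PEmpty)
  obtain ⟨i, -⟩ := (U.E_fin _ a).1 h
  exact i.elim

theorem Ult.E_insN (U : Ult B) (a x : Nm B) (z : U.M) :
    U.E z (U.cl (insN a x)) ↔ U.E z (U.cl x) ∨ z = U.cl a := by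
  obtain ⟨y, rfl⟩ := U.cl_surj z
  simp only [U.E_cl, Nm.mem, insN, iSup_option, U.sup, Option.elim, top_inf_eq, U.cl_eq]
  exact or_comm

theorem Ult.E_upN (U : Ult B) (a b : Nm B) (z : U.M) :
    U.E z (U.cl (upN a b)) ↔ z = U.cl a ∨ z = U.cl b := by
  have : Finite (upN a b).ι := inferInstanceAs (Finite Bool)
  rw [U.E_fin]
  simp [upN, U.top, or_comm]

/-- The numeral `n` in the quotient model. -/
abbrev Ult.num (U : Ult B) (n : ℕ) : U.M := U.cl (numN n)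

/-- `ω` in the quotient model. -/
abbrev Ult.om (U : Ult B) : U.M := U.cl omN

theorem Ult.suc_num (U : Ult B) (n : ℕ) : Suc U.E (U.num n) (U.num (n + 1)) :=
  fun z => U.E_insN _ _ z

theorem Ult.E_num (U : Ult B) (n : ℕ) (z : U.M) : U.E z (U.num n) ↔ ∃ k < n, z = U.num k := by
  induction n with
  | zero => exact iff_of_false (U.emp_empN z) (by simp)
  | succ n ih =>
    rw [U.suc_num n z, ih]
    constructor
    · rintro (⟨k, hk, rfl⟩ | rfl)
      · exact ⟨k, by omega, rfl⟩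
      · exact ⟨n, by omega, rfl⟩
    · rintro ⟨k, hk, rfl⟩
      rcases Nat.lt_succ_iff_lt_or_eq.1 hk with h | rfl
      · exact Or.inl ⟨k, h, rfl⟩
      · exact Or.inr rfl

theorem Ult.num_not_self (U : Ult B) (n : ℕ) : ¬ U.E (U.num n) (U.num n) := by
  induction n using Nat.strong_induction_on with
  | _ n ih =>
    intro h
    obtain ⟨k, hk, e⟩ := (U.E_num n _).1 h
    apply ih k hk
    rw [← e]
    exact h

@[simp] theorem Ult.num_inj (U : Ult B) {m n : ℕ} : U.num m = U.num n ↔ m = n := by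
  refine ⟨fun h => ?_, fun h => h ▸ rfl⟩
  by_contra hne
  rcases lt_or_gt_of_ne hne with h' | h'
  · exact U.num_not_self m (by
      conv_rhs => rw [h]
      exact (U.E_num n _).2 ⟨m, h', rfl⟩)
  · exact U.num_not_self n (by
      conv_rhs => rw [← h]
      exact (U.E_num m _).2 ⟨n, h', rfl⟩)

@[simp] theorem Ult.num_mem_num (U : Ult B) {m n : ℕ} : U.E (U.num m) (U.num n) ↔ m < n := by
  simp [U.E_num]

theorem Ult.num_mem_om (U : Ult B) (n : ℕ) : U.E (U.num n) U.om := U.E_intro omN n U.top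

theorem Ult.emp_iff (U : Ult B) (a : U.M) : Emp U.E a ↔ a = U.num 0 :=
  ⟨fun h => U.ext' _ _ fun z => iff_of_false (h z) (U.emp_empN z), fun h => h ▸ U.emp_empN⟩

theorem Ult.suc_iff (U : Ult B) (n : ℕ) (a : U.M) : Suc U.E (U.num n) a ↔ a = U.num (n + 1) :=
  ⟨fun h => U.ext' _ _ fun z => (h z).trans (U.suc_num n z).symm, fun h => h ▸ U.suc_num n⟩

/-- Induction principle: a represented property of all numerals holds of all elements of `ω`. -/
theorem om_elim (P : ∀ U : Ult B, U.M → Prop) [∀ x, Rep (fun U => P U (U.cl x))]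
    (h : ∀ U n, P U (U.num n)) (U : Ult B) (a : U.M) (ha : U.E a U.om) : P U a :=
  mem_elim omN P (fun U n _ => h U n) U a ha

theorem Ult.om_om (U : Ult B) : Om U.E U.om := by
  refine ⟨⟨⟨_, U.emp_empN, U.num_mem_om 0⟩, ?_⟩, fun v hv x hx => ?_⟩
  · exact om_elim (fun U x => ∃ y, Suc U.E x y ∧ U.E y U.om)
      (fun V n => ⟨_, V.suc_num n, V.num_mem_om _⟩) U
  · obtain ⟨v, rfl⟩ := U.cl_surj v
    refine om_elim (fun U x => Ind U.E (U.cl v) → U.E x (U.cl v)) (fun V n hv => ?_) U x hx hv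
    induction n with
    | zero =>
      obtain ⟨e, he, h⟩ := hv.1
      rwa [(V.emp_iff e).1 he] at h
    | succ n ih =>
      obtain ⟨y, hy, h⟩ := hv.2 _ ih
      rwa [(V.suc_iff n y).1 hy] at h

theorem Ult.om_unique (U : Ult B) {w : U.M} (h : Om U.E w) : w = U.om :=
  U.ext' _ _ fun z => ⟨h.2 _ U.om_om.1 z, U.om_om.2 _ h.1 z⟩

theorem Ult.found (U : Ult B) (x : U.M) (hx : ∃ y, U.E y x) :
    ∃ y, U.E y x ∧ ∀ z, U.E z y → ¬ U.E z x := by
  obtain ⟨x, rfl⟩ := U.cl_surj x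
  by_contra hcon
  have key : ∀ (y : Nm B) (V : Ult B),
      (¬ ∃ y, V.E y (V.cl x) ∧ ∀ z, V.E z y → ¬ V.E z (V.cl x)) → ¬ V.E (V.cl y) (V.cl x) := by
    intro y
    induction y with
    | mk ι A a ih =>
      intro V hV hy
      apply hV
      refine ⟨_, hy, fun z hz => ?_⟩
      exact mem_elim ⟨ι, A, a⟩ (fun V z => (¬ ∃ y, V.E y (V.cl x) ∧ ∀ z, V.E z y →
        ¬ V.E z (V.cl x)) → ¬ V.E z (V.cl x)) (fun W i _ => ih i W) V z hz hV
  obtain ⟨y, hy⟩ := hx
  obtain ⟨y, rfl⟩ := U.cl_surj y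
  exact key y U hcon hy

theorem exists_union (x : Nm B) :
    ∃ u : Nm B, ∀ (U : Ult B) z, U.E z (U.cl u) ↔ ∃ y, U.E y (U.cl x) ∧ U.E z y := by
  let u0 : Nm B := ⟨Σ i, (x.fn i).ι, fun s => (x.fn s.1).fn s.2, fun _ => ⊤⟩
  obtain ⟨v, hv⟩ := exists_sep u0 (fun U z => ∃ y, U.E y (U.cl x) ∧ U.E z y)
  refine ⟨_, fun U z => (hv U z).trans ⟨fun h => h.2, fun h => ⟨?_, h⟩⟩⟩
  obtain ⟨y, hy, hz⟩ := h
  refine mem_elim x (fun U y => ∀ z, U.E z y → U.E z (U.cl u0)) (fun V i _ => ?_) U y hy z hz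
  exact mem_elim (x.fn i) (fun U z => U.E z (U.cl u0))
    (fun W j _ => W.E_intro u0 ⟨i, j⟩ W.top) V

theorem exists_power (x : Nm B) :
    ∃ p : Nm B, ∀ (U : Ult B) z, U.E z (U.cl p) ↔ ∀ t, U.E t z → U.E t (U.cl x) := by
  let p0 : Nm B := ⟨x.ι → B, fun v => ⟨x.ι, x.fn, v⟩, fun _ => ⊤⟩
  obtain ⟨v, hv⟩ := exists_sep p0 (fun U z => ∀ t, U.E t z → U.E t (U.cl x))
  refine ⟨_, fun U z => (hv U z).trans ⟨fun h => h.2, fun h => ⟨?_, h⟩⟩⟩
  obtain ⟨z, rfl⟩ := U.cl_surj z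
  obtain ⟨w, hw⟩ := exists_sep x (fun U t => U.E t (U.cl z))
  have : U.cl z = U.cl ⟨x.ι, x.fn, w⟩ :=
    U.ext' _ _ fun t => ⟨fun ht => (hw U t).2 ⟨h t ht, ht⟩, fun ht => ((hw U t).1 ht).2⟩
  rw [this]
  exact U.E_intro p0 w U.top

theorem exists_choice (x : Nm B) : ∃ c : Nm B, ∀ U : Ult B,
    (∀ y y', U.E y (U.cl x) → U.E y' (U.cl x) → y ≠ y' → ∀ z, ¬ (U.E z y ∧ U.E z y')) →
    ∀ y, U.E y (U.cl x) → (∃ z, U.E z y) → ∃! z, U.E z y ∧ U.E z (U.cl c) := by
  obtain ⟨u, hu⟩ := exists_union x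
  let r : u.ι → u.ι → Prop := WellOrderingRel
  let d : u.ι → Nm B → B := fun i y => ⨅ j, ⨅ (_ : r j i), (Nm.mem (u.fn j) y)ᶜ
  have hd : ∀ i (U : Ult B) y j, r j i → U.P (d i y) → ¬ U.E (U.cl (u.fn j)) (U.cl y) :=
    fun i U y j hj h => (U.compl _).1 (U.mono (iInf₂_le j hj) h)
  have hd2 : ∀ i y y', Nm.eqv y y' ⊓ d i y ≤ d i y' := by
    intro i y y'
    refine le_iInf₂ fun j hj => Ult.le_of fun U hU => ?_
    rw [U.inf, ← U.cl_eq] at hU
    rw [U.compl, ← U.E_cl, ← hU.1]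
    exact hd i U y j hj hU.2
  let D : u.ι → ∀ U : Ult B, U.M → Prop := fun i U a => ∃ y, a = U.cl y ∧ U.P (d i y)
  have hD : ∀ i U y, D i U (U.cl y) ↔ U.P (d i y) := fun i U y =>
    ⟨fun ⟨y', e, h⟩ => U.mono (hd2 i y' y) ((U.inf _ _).2 ⟨U.cl_eq.1 e.symm, h⟩),
      fun h => ⟨y, rfl, h⟩⟩
  have : ∀ i y, Rep (fun U => D i U (U.cl y)) := fun i y =>
    Rep.congr (P := fun U => U.P (d i y)) fun U => (hD i U y).symm
  let c : Nm B := ⟨u.ι, u.fn, fun i =>
    bv (fun U => ∃ y, U.E y (U.cl x) ∧ U.E (U.cl (u.fn i)) y ∧ D i U y)⟩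
  refine ⟨c, fun U hdisj y hy ⟨z, hz⟩ => ?_⟩
  apply existsUnique_of_exists_of_unique
  · obtain ⟨y, rfl⟩ := U.cl_surj y
    have key : ∀ (i : u.ι) (V : Ult B), V.E (V.cl y) (V.cl x) → V.E (V.cl (u.fn i)) (V.cl y) →
        ∃ z, V.E z (V.cl y) ∧ V.E z (V.cl c) := by
      intro i
      induction i using (IsWellFounded.wf (r := r)).induction with
      | _ i ih =>
        intro V h1 h2
        by_cases h3 : V.P (d i y)
        · refine ⟨_, h2, V.E_intro c i ?_⟩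
          simp only [c, bv_iff]
          exact ⟨_, h1, h2, (hD i V y).2 h3⟩
        · rw [← V.compl] at h3
          simp only [d, compl_iInf, compl_compl] at h3
          refine sup_elim _ (fun V => V.E (V.cl y) (V.cl x) →
            ∃ z, V.E z (V.cl y) ∧ V.E z (V.cl c)) (fun W j hj h => ?_) V h3 h1
          by_cases hr : r j i
          · simp only [hr, iSup_pos] at hj
            exact ih j hr W h hj
          · simp only [hr, iSup_false] at hj
            exact (W.bot hj).elim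
    exact mem_elim u (fun V z => V.E (V.cl y) (V.cl x) → V.E z (V.cl y) →
      ∃ z, V.E z (V.cl y) ∧ V.E z (V.cl c)) (fun V i _ => key i V) U z
      ((hu U z).2 ⟨_, hy, hz⟩) hy hz
  · rintro z z' ⟨h1, h2⟩ ⟨h3, h4⟩
    refine mem_elim c (fun U z => ∀ z', U.E z' (U.cl c) →
      (∀ y y', U.E y (U.cl x) → U.E y' (U.cl x) → y ≠ y' → ∀ z, ¬ (U.E z y ∧ U.E z y')) →
      ∀ y, U.E y (U.cl x) → U.E z y → U.E z' y → z = z') (fun V i hi z' hz' => ?_)
      U z h2 z' h4 hdisj y hy h1 h3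
    refine mem_elim c (fun U z' => U.P (c.val i) →
      (∀ y y', U.E y (U.cl x) → U.E y' (U.cl x) → y ≠ y' → ∀ z, ¬ (U.E z y ∧ U.E z y')) →
      ∀ y, U.E y (U.cl x) → U.E (U.cl (c.fn i)) y → U.E z' y → U.cl (c.fn i) = z')
      (fun W j hj hi hdisj y hy h1 h2 => ?_) V z' hz' hi
    simp only [c, bv_iff] at hi hj h1 h2 ⊢
    obtain ⟨y1, a1, a2, a3⟩ := hi
    obtain ⟨y2, b1, b2, b3⟩ := hj
    have e1 : y1 = y := by
      by_contra h
      exact hdisj _ _ a1 hy h _ ⟨a2, h1⟩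
    have e2 : y2 = y := by
      by_contra h
      exact hdisj _ _ b1 hy h _ ⟨b2, h2⟩
    subst e1
    subst e2
    obtain ⟨y, rfl⟩ := W.cl_surj y2
    rcases trichotomous_of r i j with h | h | h
    · exact (hd j W y i h ((hD j W y).1 b3) h1).elim
    · rw [h]
    · exact (hd i W y j h ((hD i W y).1 a3) h2).elim

theorem Ult.update_cl (U : Ult B) (v : ℕ → Nm B) (i : ℕ) (x : Nm B) :
    Function.update (fun n => U.cl (v n)) i (U.cl x) = fun n => U.cl (Function.update v i x n) := by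
  rw [← Function.comp_def U.cl, ← Function.comp_update]
  rfl

theorem Ult.zfc (U : Ult B) : ZFC U.E where
  ext := U.ext'
  found := U.found
  pair := fun x y => by
    obtain ⟨x, rfl⟩ := U.cl_surj x
    obtain ⟨y, rfl⟩ := U.cl_surj y
    exact ⟨_, U.E_upN x y⟩
  union := fun x => by
    obtain ⟨x, rfl⟩ := U.cl_surj x
    obtain ⟨u, hu⟩ := exists_union x
    exact ⟨_, hu U⟩
  power := fun x => by
    obtain ⟨x, rfl⟩ := U.cl_surj x
    obtain ⟨u, hu⟩ := exists_power x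
    exact ⟨_, hu U⟩
  inf := ⟨_, U.om_om.1⟩
  sep := fun φ v x => by
    obtain ⟨x, rfl⟩ := U.cl_surj x
    choose v' hv using fun n => U.cl_surj (v n)
    obtain rfl : v = fun n => U.cl (v' n) := funext hv
    have : ∀ z, Rep (fun V : Ult B =>
        Sat V.E φ (Function.update (fun n => V.cl (v' n)) 0 (V.cl z))) := fun z => by
      simp only [Ult.update_cl]
      exact rep_sat φ _
    obtain ⟨w, hw⟩ := exists_sep x
      (fun V a => Sat V.E φ (Function.update (fun n => V.cl (v' n)) 0 a))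
    exact ⟨_, hw U⟩
  repl := fun φ v x h => by
    obtain ⟨x, rfl⟩ := U.cl_surj x
    choose v' hv using fun n => U.cl_surj (v n)
    obtain rfl : v = fun n => U.cl (v' n) := funext hv
    have : ∀ z z', Rep (fun V : Ult B => Sat V.E φ (Function.update
        (Function.update (fun n => V.cl (v' n)) 0 (V.cl z)) 1 (V.cl z'))) := fun z z' => by
      simp only [Ult.update_cl]
      exact rep_sat φ _
    obtain ⟨y, hy⟩ := exists_collect x (fun V a b => Sat V.E φ (Function.update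
        (Function.update (fun n => V.cl (v' n)) 0 a) 1 b))
    obtain ⟨w, hw⟩ := exists_sep y (fun V b => ∃ a, V.E a (V.cl x) ∧ Sat V.E φ (Function.update
        (Function.update (fun n => V.cl (v' n)) 0 a) 1 b))
    refine ⟨_, fun b => (hw U b).trans ⟨fun h => h.2, fun ⟨a, ha, hb⟩ => ⟨?_, a, ha, hb⟩⟩⟩
    obtain ⟨b', h1, h2⟩ := hy U a ha ⟨b, hb⟩
    rwa [(h a ha).unique hb h2]
  choice := fun x h1 h2 => by
    obtain ⟨x, rfl⟩ := U.cl_surj x
    obtain ⟨c, hc⟩ := exists_choice x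
    exact ⟨_, fun y hy => hc U h2 y hy (h1 y hy)⟩

end Pool.Agent.Lib.Forcing
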