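import Pool.Agent.Lib.Forcing.Defs

/-!
Names over a complete Boolean algebra, Boolean values of `=` and `∈`, ultrafilters, the quotient.
-/

namespace Pool.Agent.Lib.Forcing

/-- `B`-names. -/
structure Nm (B : Type) : Type 1 where
  ι : Type
  fn : ι → Nm B
  val : ι → B

namespace Nm

variable {B : Type}

variable [CompleteBooleanAlgebra B]

/-- The Boolean value of `x = y`. -/
def eqv : Nm B → Nm B → B
  | mk _ A a, mk _ C c => (⨅ i, (a i)ᶜ ⊔ ⨆ j, c j ⊓ eqv (A i) (C j)) ⊓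
      (⨅ j, (c j)ᶜ ⊔ ⨆ i, a i ⊓ eqv (A i) (C j))

/-- The Boolean value of `x ∈ y`. -/
def mem (x y : Nm B) : B := ⨆ j, y.val j ⊓ eqv x (y.fn j)

theorem le_compl_sup {a b c : B} : c ≤ aᶜ ⊔ b ↔ c ⊓ a ≤ b := by
  rw [sup_comm, ← himp_eq, le_himp_iff]

theorem eqv_refl (x : Nm B) : eqv x x = ⊤ := by
  induction x with
  | mk ι A a ih =>
    rw [eqv, eq_top_iff]
    refine le_inf (le_iInf fun i => ?_) (le_iInf fun i => ?_) <;>
    · rw [le_compl_sup]
      exact le_iSup_of_le i (by simp [ih i])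

theorem eqv_symm (x y : Nm B) : eqv x y = eqv y x := by
  induction x generalizing y with
  | mk ι A a ih =>
    cases y with
    | mk κ C c =>
      simp only [eqv, ih]
      rw [inf_comm]

theorem eqv_eq (x y : Nm B) : eqv x y = (⨅ i, (x.val i)ᶜ ⊔ mem (x.fn i) y) ⊓
    (⨅ j, (y.val j)ᶜ ⊔ mem (y.fn j) x) := by
  cases x with
  | mk ι A a =>
    cases y with
    | mk κ C c =>
      simp only [eqv, mem, eqv_symm (C _)]

theorem eqv_left (x y : Nm B) (i : x.ι) : eqv x y ⊓ x.val i ≤ mem (x.fn i) y := by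
  rw [← le_compl_sup, eqv_eq]
  exact inf_le_left.trans (iInf_le _ i)

theorem eqv_right (x y : Nm B) (j : y.ι) : eqv x y ⊓ y.val j ≤ mem (y.fn j) x := by
  rw [eqv_symm]
  exact eqv_left y x j

theorem le_eqv {x y : Nm B} {c : B} (h1 : ∀ i, c ⊓ x.val i ≤ mem (x.fn i) y)
    (h2 : ∀ j, c ⊓ y.val j ≤ mem (y.fn j) x) : c ≤ eqv x y := by
  rw [eqv_eq]
  exact le_inf (le_iInf fun i => le_compl_sup.2 (h1 i)) (le_iInf fun j => le_compl_sup.2 (h2 j))

theorem val_le_mem (x : Nm B) (i : x.ι) : x.val i ≤ mem (x.fn i) x :=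
  le_iSup_of_le i (by simp [eqv_refl])

theorem le_mem {x y : Nm B} {c : B} (j : y.ι) (h1 : c ≤ y.val j) (h2 : c ≤ eqv x (y.fn j)) :
    c ≤ mem x y := le_iSup_of_le j (le_inf h1 h2)

theorem inf_mem_le {x y : Nm B} {c d : B}
    (h : ∀ j, c ⊓ (y.val j ⊓ eqv x (y.fn j)) ≤ d) : c ⊓ mem x y ≤ d := by
  rw [mem, inf_iSup_eq]
  exact iSup_le h

theorem eqv_trans (x y z : Nm B) : eqv x y ⊓ eqv y z ≤ eqv x z := by
  induction x generalizing y z with
  | mk ι A a ih =>
    apply le_eqv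
    · intro i
      have h1 : eqv (mk ι A a) y ⊓ eqv y z ⊓ a i ≤ eqv y z ⊓ mem (A i) y :=
        le_inf (inf_le_left.trans inf_le_right)
          (le_trans (inf_le_inf_right _ inf_le_left) (eqv_left (mk ι A a) y i))
      refine h1.trans (inf_mem_le fun j => ?_)
      have h2 : eqv y z ⊓ (y.val j ⊓ eqv (A i) (y.fn j)) ≤
          eqv (A i) (y.fn j) ⊓ mem (y.fn j) z :=
        le_inf (inf_le_right.trans inf_le_right)
          (le_trans (inf_le_inf_left _ inf_le_left) (eqv_left y z j))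
      refine h2.trans (inf_mem_le fun k => ?_)
      refine le_mem k (inf_le_right.trans inf_le_left) ?_
      exact le_trans (inf_le_inf_left _ inf_le_right) (ih i _ _)
    · intro k
      have h1 : eqv (mk ι A a) y ⊓ eqv y z ⊓ z.val k ≤ eqv (mk ι A a) y ⊓ mem (z.fn k) y :=
        le_inf (inf_le_left.trans inf_le_left)
          (le_trans (inf_le_inf_right _ inf_le_right) (eqv_right y z k))
      refine h1.trans (inf_mem_le fun j => ?_)
      have h2 : eqv (mk ι A a) y ⊓ (y.val j ⊓ eqv (z.fn k) (y.fn j)) ≤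
          eqv (z.fn k) (y.fn j) ⊓ mem (y.fn j) (mk ι A a) :=
        le_inf (inf_le_right.trans inf_le_right)
          (le_trans (inf_le_inf_left _ inf_le_left) (eqv_right (mk ι A a) y j))
      refine h2.trans (inf_mem_le fun i => ?_)
      refine le_mem i (inf_le_right.trans inf_le_left) ?_
      rw [eqv_symm (z.fn k) ((mk ι A a).fn i), eqv_symm (z.fn k), eqv_symm (y.fn j) ((mk ι A a).fn i)]
      refine le_trans ?_ (ih i (y.fn j) (z.fn k))
      exact le_inf (inf_le_right.trans inf_le_right) inf_le_left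

theorem mem_congr_left (x x' y : Nm B) : eqv x x' ⊓ mem x y ≤ mem x' y := by
  refine inf_mem_le fun j => le_mem j (inf_le_right.trans inf_le_left) ?_
  rw [eqv_symm x x']
  exact le_trans (inf_le_inf_left _ inf_le_right) (eqv_trans _ _ _)

theorem mem_congr_right (x y y' : Nm B) : eqv y y' ⊓ mem x y ≤ mem x y' := by
  refine inf_mem_le fun j => ?_
  refine le_trans ?_ (mem_congr_left (y.fn j) x y')
  refine le_inf ?_ (le_trans (inf_le_inf_left _ inf_le_left) (eqv_left y y' j))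
  rw [eqv_symm (y.fn j)]
  exact inf_le_right.trans inf_le_right

/-- Mixture of names along an antichain. -/
def mix {κ : Type} (x : κ → Nm B) (a : κ → B) : Nm B :=
  mk (Σ k, (x k).ι) (fun s => (x s.1).fn s.2) (fun s => a s.1 ⊓ (x s.1).val s.2)

theorem le_eqv_mix {κ : Type} (x : κ → Nm B) (a : κ → B) (h : ∀ k l, k ≠ l → a k ⊓ a l = ⊥)
    (k : κ) : a k ≤ eqv (x k) (mix x a) := by
  apply le_eqv
  · intro i
    exact le_mem (y := mix x a) ⟨k, i⟩ le_rfl (by simp [mix, eqv_refl])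
  · rintro ⟨l, i⟩
    by_cases hkl : k = l
    · subst hkl
      exact inf_le_right.trans (inf_le_right.trans (val_le_mem _ i))
    · simp only [mix, ← inf_assoc, h k l hkl, bot_inf_eq, bot_le]

/-- The maximum principle. -/
theorem max_principle (φ : Nm B → B) (hφ : ∀ x y, eqv x y ⊓ φ x ≤ φ y) :
    ∃ x0, ∀ x, φ x ≤ φ x0 := by
  classical
  let κ := Set.range φ
  have hx : ∀ k : κ, ∃ x, φ x = k := fun k => k.2
  choose x hx using hx
  let r : κ → κ → Prop := WellOrderingRel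
  let a : κ → B := fun k => k.1 ⊓ (⨆ l, ⨆ (_ : r l k), l.1)ᶜ
  have hd : ∀ k l, r k l → a k ⊓ a l = ⊥ := by
    intro k l hkl
    rw [eq_bot_iff]
    calc a k ⊓ a l ≤ (⨆ m, ⨆ (_ : r m l), m.1) ⊓ (⨆ m, ⨆ (_ : r m l), m.1)ᶜ :=
          inf_le_inf (inf_le_left.trans (le_iSup₂_of_le k hkl le_rfl)) inf_le_right
      _ = ⊥ := inf_compl_eq_bot
  have ha : ∀ k l, k ≠ l → a k ⊓ a l = ⊥ := by
    intro k l hkl
    rcases trichotomous_of r k l with h | h | h
    · exact hd k l h
    · exact (hkl h).elim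
    · rw [inf_comm]
      exact hd l k h
  refine ⟨mix x a, fun y => ?_⟩
  have key : ∀ k : κ, k.1 ≤ φ (mix x a) := by
    intro k
    induction k using (IsWellFounded.wf (r := r)).induction with
    | _ k ih =>
      have h1 : a k ≤ φ (mix x a) := by
        refine le_trans (le_inf (le_eqv_mix x a ha k) ?_) (hφ (x k) _)
        rw [hx k]
        exact inf_le_left
      have h2 : (⨆ l, ⨆ (_ : r l k), l.1) ≤ φ (mix x a) := iSup₂_le ih
      calc k.1 ≤ a k ⊔ ⨆ l, ⨆ (_ : r l k), l.1 := by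
            simp only [a, sup_inf_right, compl_sup_eq_top, inf_top_eq, le_sup_left]
        _ ≤ _ := sup_le h1 h2
  exact key ⟨φ y, y, rfl⟩

end Nm

/-- Ultrafilters on a Boolean algebra. -/
structure Ult (B : Type) [CompleteBooleanAlgebra B] where
  P : B → Prop
  inf : ∀ a b, P (a ⊓ b) ↔ P a ∧ P b
  compl : ∀ a, P aᶜ ↔ ¬ P a

namespace Ult

variable {B : Type} [CompleteBooleanAlgebra B] (U : Ult B)

theorem mono {a b : B} (h : a ≤ b) (ha : U.P a) : U.P b := by
  rw [← inf_eq_left.2 h, U.inf] at ha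
  exact ha.2

theorem bot : ¬ U.P ⊥ := fun h =>
  (U.compl ⊥).1 (U.mono bot_le h) h

theorem top : U.P ⊤ := by
  rw [← compl_bot, U.compl]
  exact U.bot

theorem sup (a b : B) : U.P (a ⊔ b) ↔ U.P a ∨ U.P b := by
  rw [← compl_compl (a ⊔ b), U.compl, compl_sup, U.inf, U.compl, U.compl]
  tauto

theorem exists_mem {a : B} (ha : a ≠ ⊥) : ∃ U : Ult B, U.P a := by
  have h1 : (Order.Ideal.principal aᶜ).IsProper := by
    rw [Order.Ideal.isProper_iff_top_notMem]
    simpa using ha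
  obtain ⟨I, hI, hmax⟩ := h1.exists_le_maximal
  have hp : I.IsPrime := inferInstance
  have htop : ⊤ ∉ I := Order.Ideal.IsProper.top_notMem hmax.toIsProper
  have hc : ∀ x, xᶜ ∈ I → x ∉ I := fun x h1 h2 => htop (by simpa using Order.Ideal.sup_mem h2 h1)
  refine ⟨⟨fun x => x ∉ I, fun x y => ?_, fun x => ?_⟩, hc a (hI (by simp))⟩
  · constructor
    · intro h
      exact ⟨fun hx => h (I.lower inf_le_left hx), fun hy => h (I.lower inf_le_right hy)⟩
    · rintro ⟨hx, hy⟩ h
      exact (hp.mem_or_mem h).elim hx hy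
  · constructor
    · intro h h'
      exact hp.mem_or_compl_mem.elim h' h
    · intro h h'
      exact h (hc x h')

theorem le_of {a b : B} (h : ∀ U : Ult B, U.P a → U.P b) : a ≤ b := by
  by_contra hab
  have : a ⊓ bᶜ ≠ ⊥ := fun h' => hab (by simpa [← sdiff_eq] using h')
  obtain ⟨U, hU⟩ := exists_mem this
  rw [U.inf, U.compl] at hU
  exact hU.2 (h U hU.1)

/-- Equality modulo the ultrafilter. -/
def setoid : Setoid (Nm B) where
  r x y := U.P (Nm.eqv x y)
  iseqv := ⟨fun x => by rw [Nm.eqv_refl]; exact U.top, fun h => by rwa [Nm.eqv_symm],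
    fun h1 h2 => U.mono (Nm.eqv_trans _ _ _) ((U.inf _ _).2 ⟨h1, h2⟩)⟩

/-- The two-valued quotient model. -/
def M : Type 1 := Quotient U.setoid

/-- The class of a name. -/
def cl (x : Nm B) : U.M := Quotient.mk U.setoid x

theorem cl_eq {x y : Nm B} : U.cl x = U.cl y ↔ U.P (Nm.eqv x y) := Quotient.eq

theorem cl_surj (a : U.M) : ∃ x, a = U.cl x := by
  obtain ⟨x, rfl⟩ := Quotient.exists_rep a
  exact ⟨x, rfl⟩

/-- Membership in the quotient model. -/
def E : U.M → U.M → Prop :=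
  Quotient.lift₂ (fun x y => U.P (Nm.mem x y)) (by
    have key : ∀ x y x' y' : Nm B, U.P (Nm.eqv x x') → U.P (Nm.eqv y y') → U.P (Nm.mem x y) →
        U.P (Nm.mem x' y') := fun x y x' y' h1 h2 h =>
      U.mono (Nm.mem_congr_right _ _ _) ((U.inf _ _).2 ⟨h2,
        U.mono (Nm.mem_congr_left _ _ _) ((U.inf _ _).2 ⟨h1, h⟩)⟩)
    intro x y x' y' h1 h2
    exact propext ⟨key _ _ _ _ h1 h2, key _ _ _ _ (U.setoid.symm h1) (U.setoid.symm h2)⟩)

theorem E_cl {x y : Nm B} : U.E (U.cl x) (U.cl y) ↔ U.P (Nm.mem x y) := Iff.rfl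

end Ult

end Pool.Agent.Lib.Forcing
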