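import Pool.Agent.Lib.Forcing.MAlg

/-!
Names for elements of `ω^ω` given by measurable functions; the two basic facts about adding many
random points (ground points are not null; a fresh coordinate avoids few null sets).
-/

open MeasureTheory Filter Set

namespace Pool.Agent.Lib.Forcing

section Reals

variable {Ω : Type} [MeasurableSpace Ω] {μ : Measure Ω} [IsFiniteMeasure μ]

/-- Measurable maps into the Baire space. -/
structure MF (Ω : Type) [MeasurableSpace Ω] where
  f : Ω → ℕ → ℕ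
  meas : Measurable f

theorem MF.meas_eq (g : MF Ω) (k m : ℕ) : MeasurableSet {w | g.f w k = m} :=
  (measurable_pi_apply k).comp g.meas (measurableSet_singleton m)

/-- The name of the element of `ω^ω` given by a measurable map. -/
noncomputable def fnN (g : MF Ω) : Nm (MAlg μ) :=
  grN (fun km : ℕ × ℕ => numN km.1) (fun km => numN km.2) (fun km => cls fun w => g.f w km.1 = km.2)

theorem Ult.om_trans {B : Type} [CompleteBooleanAlgebra B] (U : Ult B) {a b : U.M}
    (ha : U.E a U.om) (hb : U.E b a) : U.E b U.om :=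
  om_elim (fun U a => ∀ b, U.E b a → U.E b U.om) (fun V n b hb => by
    obtain ⟨k, -, rfl⟩ := (V.E_num n b).1 hb
    exact V.num_mem_om k) U a ha b hb

theorem Ult.ap_fnN_om (U : Ult (MAlg μ)) (g : MF Ω) {x y : U.M} (h : Ap U.E (U.cl (fnN g)) x y) :
    U.E x U.om ∧ U.E y U.om :=
  ap_elim _ _ _ (fun U x y => U.E x U.om ∧ U.E y U.om)
    (fun V _ _ => ⟨V.num_mem_om _, V.num_mem_om _⟩) U x y h

instance Tr.ap_fnN (g : MF Ω) (k m : ℕ) :
    Tr (fun U : Ult (MAlg μ) => Ap U.E (U.cl (fnN g)) (U.num k) (U.num m))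
      (fun w => g.f w k = m) := by
  refine ⟨g.meas_eq k m, fun U => ⟨fun h => ?_, fun h => U.ap_grN _ _ _ (k, m) h⟩⟩
  refine ap_elim _ _ _ (fun U x y => x = U.num k → y = U.num m → U.P (cls fun w => g.f w k = m))
    (fun V i hi h1 h2 => ?_) U _ _ h rfl rfl
  rw [← V.num_inj.1 h1, ← V.num_inj.1 h2]
  exact hi

/-- Deciding the value of a measurable map into a countable set. -/
theorem decide_elim {α : Type} [Countable α] (φ : Ω → α) (hφ : ∀ a, MeasurableSet {w | φ w = a})
    (P : Ult (MAlg μ) → Prop) [Rep P] (h : ∀ U a, U.P (cls fun w => φ w = a) → P U)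
    (U : Ult (MAlg μ)) : P U := by
  refine sup_elim _ P h U ?_
  rw [← (Tr.iSup' (μ := μ) (fun a w => φ w = a) hφ).2]
  simpa using ((Tr.const (μ := μ) True).iff U).1 trivial

theorem Ult.fn_fnN (U : Ult (MAlg μ)) (g : MF Ω) {R : U.M → U.M → Prop} :
    Fn U.E U.om R (U.cl (fnN g)) ↔
      ∀ x, U.E x U.om → ∀ y, U.E y U.om → Ap U.E (U.cl (fnN g)) x y → R x y := by
  refine ⟨fun h x _ y _ hxy => h.2.2 x y hxy, fun h => ⟨grN_dom _ _ _ _
    (fun V k _ => V.num_mem_om _) U, ?_, fun x y hxy =>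
      h x (U.ap_fnN_om g hxy).1 y (U.ap_fnN_om g hxy).2 hxy⟩⟩
  refine om_elim (fun U x => ∃! y, Ap U.E (U.cl (fnN g)) x y) (fun V k => ?_) U
  refine decide_elim (fun w => g.f w k) (g.meas_eq k)
    (fun U => ∃! y, Ap U.E (U.cl (fnN g)) (U.num k) y) (fun W m hm => ?_) V
  refine ⟨_, ((Tr.ap_fnN g k m).iff W).2 hm, fun y hy => ?_⟩
  refine om_elim (fun U y => Ap U.E (U.cl (fnN g)) (U.num k) (U.num m) →
    Ap U.E (U.cl (fnN g)) (U.num k) y → y = U.num m) (fun X j h1 h2 => ?_) W y
    (W.ap_fnN_om g hy).2 (((Tr.ap_fnN g k m).iff W).2 hm) hy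
  rw [X.num_inj]
  exact (inferInstance : Tr (fun U : Ult (MAlg μ) => Ap U.E (U.cl (fnN g)) (U.num k) (U.num m) ∧
    Ap U.E (U.cl (fnN g)) (U.num k) (U.num j)) _).imp_of_ae (Tr.const (j = m))
    (ae_of_all _ fun w h => h.2.symm.trans h.1) X ⟨h1, h2⟩

theorem Ult.fn_fnN_om (U : Ult (MAlg μ)) (g : MF Ω) :
    Fn U.E U.om (fun _ y => U.E y U.om) (U.cl (fnN g)) := (U.fn_fnN g).2 fun _ _ _ h _ => h

/-- Every name for an element of `ω^ω` is given by a measurable map. -/
theorem exists_fnN (a : Nm (MAlg μ)) : ∃ g : MF Ω, ∀ U : Ult (MAlg μ),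
    Fn U.E U.om (fun _ y => U.E y U.om) (U.cl a) → U.cl a = U.cl (fnN g) := by
  classical
  choose s hs using fun k m => Tr.of_rep (μ := μ) (fun U => Ap U.E (U.cl a) (U.num k) (U.num m))
  let f : Ω → ℕ → ℕ := fun w k => if h : ∃ m, s k m w then Nat.find h else 0
  have hf : ∀ k m, MeasurableSet {w | s k m w ∧ ∀ j < m, ¬ s k j w} := fun k m =>
    (hs k m).meas.inter (show MeasurableSet {w | ∀ j < m, ¬ s k j w} by
      simp only [Set.ofPred_forall]
      exact MeasurableSet.iInter fun j => MeasurableSet.iInter fun _ => (hs k j).meas.compl)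
  have hf' : ∀ k m w, s k m w → (∀ j < m, ¬ s k j w) → f w k = m := by
    intro k m w h1 h2
    have h : ∃ m, s k m w := ⟨m, h1⟩
    simp only [f, dif_pos h]
    exact (Nat.find_eq_iff h).2 ⟨h1, h2⟩
  have hmeas : Measurable f := by
    refine measurable_pi_lambda _ fun k => measurable_to_countable' fun m => ?_
    have : (fun w => f w k) ⁻¹' {m} = {w | s k m w ∧ ∀ j < m, ¬ s k j w} ∪
        ({w | m = 0} ∩ ⋂ j, {w | s k j w}ᶜ) := by
      ext w
      by_cases h : ∃ m, s k m w
      · simp only [f, dif_pos h, mem_preimage, mem_singleton_iff, Nat.find_eq_iff, mem_union,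
          mem_ofPred_eq, mem_inter_iff, mem_iInter, mem_compl_iff]
        obtain ⟨j, hj⟩ := h
        exact ⟨Or.inl, fun h => h.elim id fun h => (h.2 j hj).elim⟩
      · simp only [f, dif_neg h, mem_preimage, mem_singleton_iff, mem_union,
          mem_ofPred_eq, mem_inter_iff, mem_iInter, mem_compl_iff]
        push Not at h
        exact ⟨fun e => Or.inr ⟨e.symm, h⟩, fun e => e.elim (fun e => (h _ e.1).elim) (·.1.symm)⟩
    rw [this]
    exact (hf k m).union ((MeasurableSet.const _).inter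
      (MeasurableSet.iInter fun j => (hs k j).meas.compl))
  let g : MF Ω := ⟨f, hmeas⟩
  have key : ∀ (U : Ult (MAlg μ)) x y, Fn U.E U.om (fun _ y => U.E y U.om) (U.cl a) →
      Ap U.E (U.cl a) x y → Ap U.E (U.cl (fnN g)) x y := by
    intro U x y h1 h2
    refine om_elim (fun U x => ∀ y, Fn U.E U.om (fun _ y => U.E y U.om) (U.cl a) →
      Ap U.E (U.cl a) x y → Ap U.E (U.cl (fnN g)) x y) (fun V k y h1 h2 => ?_) U x
      (h1.dom U.zfc h2) y h1 h2
    refine om_elim (fun U y => Fn U.E U.om (fun _ y => U.E y U.om) (U.cl a) →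
      Ap U.E (U.cl a) (U.num k) y → Ap U.E (U.cl (fnN g)) (U.num k) y) (fun W m h1 h2 => ?_) V y
      (h1.2.2 _ _ h2) h1 h2
    rw [(Tr.ap_fnN g k m).iff W]
    refine cls_of_atom (fun j : Fin (m + 1) => s k j) (fun j => (hs k j).meas) W (g.meas_eq k m)
      fun w hw => hf' k m w ?_ fun j hj hw' => ?_
    · exact (hw ⟨m, by omega⟩).2 (((hs k m).iff W).1 h2)
    · have := ((hs k j).iff W).2 ((hw ⟨j, by omega⟩).1 hw')
      have := W.num_inj.1 (h1.unique W.zfc this h2)
      omega
  refine ⟨g, fun U h => h.ext U.zfc (U.fn_fnN_om g) fun x y => ⟨key U x y h, fun h' => ?_⟩⟩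
  obtain ⟨y', hy', -⟩ := h.2.1 x (U.ap_fnN_om g h').1
  rwa [(U.fn_fnN_om g).unique U.zfc h' (key U x y' h hy')]

end Reals

section Fubini

variable {Y : Type} [MeasurableSpace Y] (ν : Measure Y) [IsProbabilityMeasure ν]

theorem exists_ground_point {Ω : Type} [MeasurableSpace Ω] (μ : Measure Ω) [IsFiniteMeasure μ]
    (Z : Set (Ω × Y)) (hZ : MeasurableSet Z) (h : ∀ w, ν {y | (w, y) ∈ Z} = 0) :
    ∃ y, μ {w | (w, y) ∈ Z} = 0 := by
  have h1 : ∀ᵐ w ∂μ, ∀ᵐ y ∂ν, (w, y) ∉ Z :=
    ae_of_all _ fun w => measure_eq_zero_iff_ae_notMem.1 (h w)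
  have h2 := (Measure.ae_ae_comm (μ := μ) (ν := ν) (p := fun w y => (w, y) ∉ Z) hZ.compl).1 h1
  obtain ⟨y, hy⟩ := h2.exists
  exact ⟨y, measure_eq_zero_iff_ae_notMem.2 hy⟩

theorem exists_support {K : Type} (Z : Set ((K → Y) × Y)) (hZ : MeasurableSet Z) :
    ∃ S : Set K, S.Countable ∧ ∀ w w' : K → Y, (∀ k ∈ S, w k = w' k) →
      ∀ y, (w, y) ∈ Z ↔ (w', y) ∈ Z := by
  let m : MeasurableSpace ((K → Y) × Y) :=
    { MeasurableSet' := fun Z => ∃ S : Set K, S.Countable ∧ ∀ w w' : K → Y,
        (∀ k ∈ S, w k = w' k) → ∀ y, (w, y) ∈ Z ↔ (w', y) ∈ Z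
      measurableSet_empty := ⟨∅, countable_empty, by simp⟩
      measurableSet_compl := fun Z ⟨S, h1, h2⟩ => ⟨S, h1, fun w w' h y => not_congr (h2 w w' h y)⟩
      measurableSet_iUnion := fun f hf => by
        choose S h1 h2 using hf
        refine ⟨⋃ i, S i, countable_iUnion h1, fun w w' h y => ?_⟩
        simp only [mem_iUnion]
        exact exists_congr fun i => h2 i w w' (fun k hk => h k (mem_iUnion.2 ⟨i, hk⟩)) y }
  have : Prod.instMeasurableSpace ≤ m := by
    refine sup_le ?_ ?_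
    · rw [MeasurableSpace.comap_le_iff_le_map]
      refine iSup_le fun k => ?_
      rintro _ ⟨t, -, rfl⟩
      exact ⟨{k}, countable_singleton k, fun w w' h y => by simp [h k rfl]⟩
    · rintro _ ⟨t, -, rfl⟩
      exact ⟨∅, countable_empty, by simp⟩
  exact this Z hZ

theorem map_update {K : Type} [DecidableEq K] (α : K) :
    ((Measure.infinitePi fun _ : K => ν).prod ν).map (fun p => Function.update p.1 α p.2) =
      Measure.infinitePi fun _ : K => ν := by
  have hm : Measurable (fun p : (K → Y) × Y => Function.update p.1 α p.2) := measurable_update'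
  refine Measure.eq_infinitePi _ fun s t ht => ?_
  rw [Measure.map_apply hm (MeasurableSet.pi s.countable_toSet fun i _ => ht i)]
  by_cases h : α ∈ s
  · have : (fun p : (K → Y) × Y => Function.update p.1 α p.2) ⁻¹' (Set.pi s t) =
        (Set.pi (s.erase α) t) ×ˢ t α := by
      ext ⟨w, y⟩
      simp only [mem_preimage, Set.mem_pi, Finset.mem_coe, mem_prod, Finset.mem_erase]
      constructor
      · intro H
        refine ⟨fun i hi => ?_, by simpa using H α h⟩
        simpa [Function.update_of_ne hi.1] using H i hi.2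
      · intro H i hi
        by_cases e : i = α
        · subst e
          simpa using H.2
        · simpa [Function.update_of_ne e] using H.1 i ⟨e, hi⟩
    rw [this, Measure.prod_prod, Measure.infinitePi_pi _ fun i _ => ht i,
      Finset.prod_erase_mul _ _ h]
  · have : (fun p : (K → Y) × Y => Function.update p.1 α p.2) ⁻¹' (Set.pi s t) =
        (Set.pi s t) ×ˢ univ := by
      ext ⟨w, y⟩
      simp only [mem_preimage, Set.mem_pi, Finset.mem_coe, mem_prod, mem_univ, and_true]
      refine forall₂_congr fun i hi => ?_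
      rw [Function.update_of_ne (fun e : i = α => h (e ▸ hi))]
    rw [this, Measure.prod_prod, Measure.infinitePi_pi _ fun i _ => ht i]
    simp

theorem exists_fresh {J : Type} (Z : J → Set ((Set (J × ℕ) → Y) × Y))
    (hZ : ∀ j, MeasurableSet (Z j)) (h : ∀ j w, ν {y | (w, y) ∈ Z j} = 0) :
    ∃ α, ∀ j, (Measure.infinitePi fun _ : Set (J × ℕ) => ν) {w | (w, w α) ∈ Z j} = 0 := by
  classical
  choose S h1 h2 using fun j => exists_support (Z j) (hZ j)
  choose e he using fun j => ((h1 j).insert ∅).exists_eq_range (insert_nonempty _ _)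
  obtain ⟨α, hα⟩ : ∃ α, ∀ p : J × ℕ, e p.1 p.2 ≠ α := by
    by_contra hcon
    push Not at hcon
    exact Function.cantor_surjective (fun p : J × ℕ => e p.1 p.2) hcon
  refine ⟨α, fun j => ?_⟩
  have hS : α ∉ S j := fun hs => by
    obtain ⟨n, hn⟩ : α ∈ range (e j) := he j ▸ mem_insert_of_mem _ hs
    exact hα (j, n) hn
  have hm : MeasurableSet {w : Set (J × ℕ) → Y | (w, w α) ∈ Z j} :=
    (measurable_id.prodMk (measurable_pi_apply α)) (hZ j)
  rw [← map_update ν α, Measure.map_apply measurable_update' hm]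
  have : (fun p : (Set (J × ℕ) → Y) × Y => Function.update p.1 α p.2) ⁻¹'
      {w | (w, w α) ∈ Z j} = Z j := by
    ext ⟨w, y⟩
    simp only [mem_preimage, mem_ofPred_eq, Function.update_self]
    exact h2 j _ _ (fun k hk => Function.update_of_ne (fun e : k = α => hS (e ▸ hk)) _ _) y
  rw [this]
  exact Measure.measure_prod_null_of_ae_null (hZ j) (ae_of_all _ fun w => h j w)

end Fubini

end Pool.Agent.Lib.Forcing
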